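import Mathlib

namespace Pool.Agent.Results.MP_64c30f_co.Kneser

/-- The cops, standing at `c` and about to move, can force the capture of a robber standing at `r`. -/
inductive CopsWin {V : Type} (G : SimpleGraph V) {k : ℕ} : (Fin k → V) → V → Prop
  | capture (c : Fin k → V) (r : V) (i : Fin k) (h : c i = r ∨ G.Adj (c i) r) : CopsWin G c r
  | move (c c' : Fin k → V) (r : V) (h : ∀ i, c i = c' i ∨ G.Adj (c i) (c' i))
      (h' : ∀ r', r = r' ∨ G.Adj r r' → CopsWin G c' r') : CopsWin G c r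

/-- One pebbling move. -/
def PebMove {V : Type} [DecidableEq V] (G : SimpleGraph V) (D D' : V → ℕ) : Prop :=
  ∃ v u, G.Adj v u ∧ 2 ≤ D v ∧
    D' = fun x => if x = v then D x - 2 else if x = u then D x + 1 else D x

def KV (m : ℕ) : Type := {s : Finset (Fin ((m + 1) * (m + 3))) // s.card = m + 1}

instance (m : ℕ) : Fintype (KV m) := by unfold KV; infer_instance
instance (m : ℕ) : DecidableEq (KV m) := by unfold KV; infer_instance

def KG (m : ℕ) : SimpleGraph (KV m) where
  Adj s t := Disjoint s.1 t.1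
  symm := ⟨fun _ _ h => h.symm⟩
  loopless := ⟨fun s h => by
    have h1 := s.2
    rw [disjoint_self] at h
    rw [h] at h1
    simp at h1⟩

theorem common (m : ℕ) (s t : KV m) : ∃ u : KV m, (KG m).Adj s u ∧ (KG m).Adj u t := by
  have h : m + 1 ≤ ((s.1 ∪ t.1)ᶜ).card := by
    rw [Finset.card_compl, Fintype.card_fin]
    have := Finset.card_union_le s.1 t.1
    rw [s.2, t.2] at this
    have h2 : (m + 1) * (m + 3) = (m + 1) * m + 3 * (m + 1) := by ring
    omega
  obtain ⟨u, hu, hc⟩ := Finset.exists_subset_card_eq h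
  refine ⟨⟨u, hc⟩, ?_, ?_⟩
  · exact Finset.disjoint_left.mpr fun x hx hx' => by simpa [hx] using hu hx'
  · exact Finset.disjoint_left.mpr fun x hx hx' => by simpa [hx'] using hu hx

theorem escape (m k : ℕ) (hk : k ≤ m) (c : Fin k → KV m) (R : Finset (Fin ((m + 1) * (m + 3))))
    (hR : R.card ≤ m + 1) (hc : ∀ i, (c i).1 ≠ R) :
    ∃ r : KV m, Disjoint R r.1 ∧ ∀ i, ¬ (c i = r ∨ (KG m).Adj (c i) r) := by
  have h1 : ∀ i, ∃ x ∈ (c i).1, x ∉ R := by
    intro i
    by_contra h
    push Not at h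
    exact hc i (Finset.eq_of_subset_of_card_le h (by rw [(c i).2]; exact hR))
  choose x hx1 hx2 using h1
  let X := Finset.univ.image x
  have hX : X.card ≤ k := by simpa using Finset.card_image_le (s := Finset.univ) (f := x)
  let U := R ∪ Finset.univ.biUnion fun i => (c i).1
  have hU : U.card ≤ (m + 1) + m * (m + 1) := by
    refine (Finset.card_union_le _ _).trans (add_le_add hR ?_)
    refine Finset.card_biUnion_le.trans ?_
    simp only [fun i => (c i).2, Finset.sum_const, Finset.card_univ, Fintype.card_fin, smul_eq_mul]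
    exact Nat.mul_le_mul_right _ hk
  have h : m + 1 - X.card ≤ (Uᶜ).card := by
    rw [Finset.card_compl, Fintype.card_fin]
    have h2 : (m + 1) * (m + 3) = m * (m + 1) + 3 * (m + 1) := by ring
    omega
  obtain ⟨Y, hY, hc'⟩ := Finset.exists_subset_card_eq h
  have hY1 : ∀ y ∈ Y, y ∉ R ∧ ∀ i, y ∉ (c i).1 := by
    intro y hy
    simpa [U] using hY hy
  have hXY : Disjoint X Y := by
    rw [Finset.disjoint_left]
    intro y hy hy'
    obtain ⟨i, -, rfl⟩ := Finset.mem_image.mp hy
    exact (hY1 _ hy').2 i (hx1 i)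
  refine ⟨⟨X ∪ Y, by rw [Finset.card_union_of_disjoint hXY, hc']; omega⟩, ?_, ?_⟩
  · rw [Finset.disjoint_right]
    intro y hy
    rcases Finset.mem_union.mp hy with hy | hy
    · obtain ⟨i, -, rfl⟩ := Finset.mem_image.mp hy
      exact hx2 i
    · exact (hY1 y hy).1
  · rintro i (h | h)
    · obtain ⟨y, hy⟩ := Finset.card_pos.mp (by omega : 0 < Y.card)
      refine (hY1 y hy).2 i ?_
      rw [h]
      exact Finset.mem_union_right _ hy
    · exact Finset.disjoint_left.mp h (hx1 i)
        (Finset.mem_union_left _ (Finset.mem_image_of_mem _ (Finset.mem_univ i)))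

theorem safe (m k : ℕ) (hk : k ≤ m) (c : Fin k → KV m) (r : KV m) (h : CopsWin (KG m) c r) :
    ∃ i, c i = r ∨ (KG m).Adj (c i) r := by
  induction h with
  | capture c r i h => exact ⟨i, h⟩
  | move c c' r h _ ih =>
    by_contra hn
    push Not at hn
    obtain ⟨r', h1, h2⟩ := escape m k hk c' r.1 r.2.le (by
      intro i hi
      have : c' i = r := Subtype.ext hi
      rcases h i with h3 | h3
      · exact (hn i).1 (h3.trans this)
      · exact (hn i).2 (this ▸ h3))
    obtain ⟨i, hi⟩ := ih r' (.inr h1)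
    exact h2 i hi

theorem result (m : ℕ) : ∃ (V : Type) (_ : Fintype V) (_ : DecidableEq V) (G : SimpleGraph V),
    G.Connected ∧
    (∃ D : V → ℕ, ∑ v, D v = 4 ∧
      ∀ r, ∃ D', Relation.ReflTransGen (PebMove G) D D' ∧ 1 ≤ D' r) ∧
    ∀ k ≤ m, ∀ c : Fin k → V, ∃ r, ¬ CopsWin G c r := by
  have hne : Nonempty (KV m) := by
    obtain ⟨u, -, hc⟩ := Finset.exists_subset_card_eq (s := (Finset.univ : Finset (Fin ((m + 1) * (m + 3)))))
      (n := m + 1) (by simp)
    exact ⟨⟨u, hc⟩⟩
  refine ⟨KV m, inferInstance, inferInstance, KG m, ⟨fun s t => ?_⟩, ?_, ?_⟩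
  · obtain ⟨u, h1, h2⟩ := common m s t
    exact h1.reachable.trans h2.reachable
  · obtain ⟨s⟩ := hne
    refine ⟨fun x => if x = s then 4 else 0, by simp, fun r => ?_⟩
    by_cases hr : r = s
    · exact ⟨_, .refl, by simp [hr]⟩
    obtain ⟨u, h1, h2⟩ := common m s r
    have n1 := h1.ne'
    have n2 := h2.ne'
    refine ⟨_, .tail (.tail (.single ⟨s, u, h1, by simp, rfl⟩) ⟨s, u, h1, by simp, rfl⟩)
      ⟨u, r, h2, by simp [n1], rfl⟩, ?_⟩
    simp [n2]
  · intro k hk c
    obtain ⟨r, -, h⟩ := escape m k hk c ∅ (by simp) (fun i hi => by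
      have := (c i).2
      rw [hi] at this
      simp at this)
    exact ⟨r, fun hw => (safe m k hk c r hw).elim h⟩

end Pool.Agent.Results.MP_64c30f_co.Kneser
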